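import Pool.Agent.Y41.EV.StmL
import Pool.Agent.Y884.ME.Fast

/-!
Fast times are near chains of bad blocks (job EV-FM1 of the project EV of helper41; uses the proof
of `chain_sub` in `Pool/Agent/Y884/ME/Fast.lean`).
-/

set_option autoImplicit false

namespace Pool.Agent.Y941.EV

open H974 Finset H342P H984P H984N
open Pool.Agent.Y985.ME Pool.Agent.Y41.EV
open Pool.Agent.Y884.ME (blk_step blk_far chain pigeon count_times good_time AS cls)

open Classical in
/-- If the path is fast then many blocks of a chain are bad; the chain begins at the block of the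
first vertex. -/
theorem chain_at {D : Dm} (hD : D.Ok) {W : ℤ} (hW : 1 ≤ W) {F : Finset Edg}
    (hF : F ⊆ D.edges) {Bd : Vtx → Finset Edg → Prop} {M : ℕ}
    (hgood : ∀ q, ¬ Bd q F → ∀ k l : ℕ, k ≤ l → l ≤ D.len F →
      (∀ t, k ≤ t → t ≤ l → sd (blk W (D.walk F t).1) q ≤ 1) →
      W ≤ sd (D.walk F k).1 (D.walk F l).1 → M ≤ l - k)
    {k : ℕ} (hk : 2 ≤ k) {k0 l0 : ℕ} (h0 : k0 ≤ l0) (hl : l0 ≤ D.len F)
    (hd : k * W ≤ sd (D.walk F k0).1 (D.walk F l0).1)
    (hM : 98 * (l0 - k0 + 1) < (k + 1) * M) :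
    ∃ Q ∈ AS k (blk W (D.walk F k0).1), Q.card = k + 1 ∧ ∃ B ∈ Q.powerset,
      (B ⊆ Bks D W ∧ (∀ q ∈ B, ∀ r ∈ B, cls q = cls r) ∧ k + 1 ≤ 98 * B.card) ∧
      ∀ q ∈ B, Bd q F := by
  have hβ : ∀ r, sd (blk W (D.walk F (k0 + r)).1) (blk W (D.walk F (k0 + (r + 1))).1) ≤ 1 :=
    fun r => blk_step hW ((walk_step D F (k0 + r)).trans hW)
  have hxN : (D.walk F l0).1 = (D.walk F (k0 + (l0 - k0))).1 := by
    rw [Nat.add_sub_cancel' h0]
  have hd2 : 2 * W ≤ sd (D.walk F k0).1 (D.walk F l0).1 := by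
    have : (2 : ℤ) * W ≤ k * W := mul_le_mul_of_nonneg_right (by exact_mod_cast hk) (by omega)
    omega
  obtain ⟨Q, hQ, hQc, hQv⟩ := chain (β := fun r => blk W (D.walk F (k0 + r)).1) hβ (l0 - k0) k 0
    (Nat.zero_le _) (by
      have h1 := blk_far hW hd
      rw [hxN] at h1
      exact h1)
  have hin : ∀ q ∈ Q, q ∈ Bks D W := by
    intro q hq
    obtain ⟨τ, -, -, h1⟩ := hQv q hq
    rw [← h1]
    exact Pool.Agent.Y884.ME.blk_mem hW (walk_in hD hF _)
  refine ⟨Q, hQ, hQc, ?_⟩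
  obtain ⟨c, hc⟩ := pigeon (Q := Q) (k := k + 1) hQc.ge
  obtain ⟨Qc, hQcd⟩ : ∃ Qc, Qc = Q.filter (fun q => cls q = c) := ⟨_, rfl⟩
  have hc' : k + 1 ≤ 49 * Qc.card := by rw [hQcd]; exact hc
  have hcl : ∀ q ∈ Qc, cls q = c := by
    intro q hq
    rw [hQcd, mem_filter] at hq
    exact hq.2
  have hsub : Qc ⊆ Q := by rw [hQcd]; exact filter_subset _ _
  refine ⟨Qc.filter (fun q => Bd q F), ?_, ⟨?_, ?_, ?_⟩, ?_⟩
  · rw [mem_powerset]
    exact (filter_subset _ _).trans hsub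
  · intro q hq
    rw [mem_filter] at hq
    exact hin q (hsub hq.1)
  · intro q hq r hr
    rw [mem_filter] at hq hr
    rw [hcl q hq.1, hcl r hr.1]
  · have hsplit := card_filter_add_card_filter_not (s := Qc) (fun q => Bd q F)
    have hct := count_times (β := fun r => blk W (D.walk F (k0 + r)).1) (n := l0 - k0) (M := M)
      (G := Qc.filter (fun q => ¬ Bd q F)) (by
        intro q hq r hr
        rw [mem_filter] at hq hr
        rw [hcl q hq.1, hcl r hr.1]) (by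
        intro q hq
        rw [mem_filter] at hq
        obtain ⟨τ, -, hτ, hτq⟩ := hQv q (hsub hq.1)
        exact good_time hW (hgood q hq.2) h0 hl hd2 hτ hτq)
    by_contra hcon
    push Not at hcon
    set g := (Qc.filter (fun q => ¬ Bd q F)).card with hg
    set b := (Qc.filter (fun q => Bd q F)).card with hb
    have h1 : k + 1 ≤ 98 * g := by omega
    have h2 : (k + 1) * M ≤ 98 * g * M := Nat.mul_le_mul_right M h1
    have h3 : 98 * g * M = 98 * (g * M) := by ring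
    omega
  · intro q hq
    rw [mem_filter] at hq
    exact hq.2

/-- Position of a vertex in its block. -/
theorem blk_pos {W : ℤ} (hW : 1 ≤ W) {v q : Vtx} (h : blk W v = q) :
    (q.1 * W ≤ v.1 ∧ v.1 < q.1 * W + W) ∧ (q.2 * W ≤ v.2 ∧ v.2 < q.2 * W + W) := by
  have hW0 : 0 < W := by omega
  unfold blk at h
  rw [← h]
  have key : ∀ x : ℤ, x / W * W ≤ x ∧ x < x / W * W + W := by
    intro x
    refine ⟨Int.ediv_mul_le x hW0.ne', ?_⟩
    have := Int.lt_ediv_add_one_mul_self x hW0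
    linarith
  exact ⟨key _, key _⟩

/-- A fast time is near a chain with many bad blocks. -/
theorem near_bad {D : Dm} (hD : D.Ok) {W : ℤ} (hW : 1 ≤ W) {F : Finset Edg}
    (hF : F ⊆ D.edges) {Bd : Vtx → Finset Edg → Prop} {m N k M : ℕ}
    (hgood : ∀ q, ¬ Bd q F → ∀ k l : ℕ, k ≤ l → l ≤ D.len F →
      (∀ t, k ≤ t → t ≤ l → sd (blk W (D.walk F t).1) q ≤ 1) →
      W ≤ sd (D.walk F k).1 (D.walk F l).1 → M ≤ l - k)
    (hk : 2 ≤ k) (hkm : (k : ℤ) * W ≤ m) (hM : 98 * (N + 1) < (k + 1) * M) {s t : ℕ}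
    (hs : s ≤ D.len F) (ht : t ≤ D.len F) (hst : s ≤ t + N) (hts : t ≤ s + N)
    (hd : (m : ℤ) ≤ sd (D.walk F s).1 (D.walk F t).1) {q : Vtx}
    (hq : blk (4 * m) (D.walk F t).1 = q) : NearBad D W k m Bd q F := by
  have h2W : 2 * W ≤ m := by
    have : (2 : ℤ) * W ≤ k * W := mul_le_mul_of_nonneg_right (by exact_mod_cast hk) (by omega)
    omega
  obtain ⟨x, hx⟩ : ∃ x : ℕ → Vtx, x = fun t => (D.walk F t).1 := ⟨_, rfl⟩
  have hxs : ∀ s, sd (x s) (x (s + 1)) ≤ 1 := by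
    intro s
    rw [hx]
    exact walk_step D F s
  have hd' : (m : ℤ) ≤ sd (x t) (x s) := by
    rw [det_sd_comm, hx]
    exact hd
  obtain ⟨k0, l0, h0, h1, h2, h3, h4⟩ : ∃ k0 l0 : ℕ, k0 ≤ l0 ∧ l0 ≤ D.len F ∧ l0 - k0 ≤ N ∧
      (m : ℤ) ≤ sd (x k0) (x l0) ∧ sd (x t) (x k0) ≤ m := by
    rcases le_total t s with h | h
    · obtain ⟨i, e1, e2, e3, e4⟩ := det_first x hxs h hd'
      refine ⟨t, i, e1, by omega, by omega, e3, ?_⟩
      rw [det_sd_self]
      omega
    · obtain ⟨i, e1, e2, e3, e4⟩ := det_last x hxs h hd'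
      refine ⟨i, t, e2, ht, by omega, by rw [det_sd_comm]; exact e3, ?_⟩
      have := e4 i le_rfl e2
      omega
  have h3' : (k : ℤ) * W ≤ sd (D.walk F k0).1 (D.walk F l0).1 := by
    rw [hx] at h3
    exact hkm.trans h3
  have h5 := chain_at hD hW hF hgood hk h0 h1 h3' (by omega)
  have hb := blk_pos hW (v := (D.walk F k0).1) rfl
  have hqb := blk_pos (W := 4 * m) (by omega) hq
  have h6 : sd (D.walk F t).1 (D.walk F k0).1 ≤ m := by
    rw [hx] at h4
    exact h4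
  rw [det_sd_eq] at h6
  refine ⟨blk W (D.walk F k0).1, Pool.Agent.Y884.ME.blk_mem hW (walk_in hD hF _), ?_, h5⟩
  obtain ⟨⟨b1, b2⟩, b3, b4⟩ := hb
  obtain ⟨⟨c1, c2⟩, c3, c4⟩ := hqb
  refine ⟨?_, ?_, ?_, ?_⟩ <;> omega

theorem t_FM1 : S_FM1 := by
  classical
  intro D W m N k M F Bd hD hW hk hkm hF hM hgood
  have h2W : 2 * W ≤ m := by
    have : (2 : ℤ) * W ≤ k * W := mul_le_mul_of_nonneg_right (by exact_mod_cast hk) (by omega)
    omega
  unfold FastT
  obtain ⟨T, hT⟩ : ∃ T : Finset ℕ, T = (Finset.range (D.len F + 1)).filter (fun t =>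
    ∃ s ≤ D.len F, s ≤ t + N ∧ t ≤ s + N ∧ (m : ℤ) ≤ sd (D.walk F s).1 (D.walk F t).1) :=
    ⟨_, rfl⟩
  have hTm : ∀ t ∈ T, t ≤ D.len F ∧ ∃ s ≤ D.len F, s ≤ t + N ∧ t ≤ s + N ∧
      (m : ℤ) ≤ sd (D.walk F s).1 (D.walk F t).1 := by
    intro t ht
    rw [hT, mem_filter, mem_range] at ht
    exact ⟨by omega, ht.2⟩
  have hc : (T.card : ℝ) = ∑ q ∈ Bks D (4 * m),
      (((T.filter (fun t => blk (4 * m) (D.walk F t).1 = q)).card : ℕ) : ℝ) := by
    rw [← Nat.cast_sum]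
    congr 1
    exact card_eq_sum_card_fiberwise fun t _ =>
      Pool.Agent.Y884.ME.blk_mem (by omega) (walk_in hD hF t)
  have hgoal : (T.card : ℝ) ≤ ∑ q ∈ Bks D (4 * m), ind (Tch D (4 * m) q F) *
      ((Nq D (4 * m) q F : ℝ) * ind (NearBad D W k m Bd q F)) := by
    rw [hc]
    refine sum_le_sum fun q _ => ?_
    rcases (T.filter (fun t => blk (4 * m) (D.walk F t).1 = q)).eq_empty_or_nonempty with h0 | h0
    · rw [h0, card_empty, Nat.cast_zero]
      exact mul_nonneg (ind_nonneg _) (mul_nonneg (Nat.cast_nonneg _) (ind_nonneg _))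
    · obtain ⟨t, ht⟩ := h0
      rw [mem_filter] at ht
      obtain ⟨ht1, ht2⟩ := ht
      obtain ⟨ht3, s, hs, hst, hts, hd⟩ := hTm t ht1
      have hnb : NearBad D W k m Bd q F :=
        near_bad hD hW hF hgood hk hkm hM hs ht3 hst hts hd ht2
      have hTch : Tch D (4 * m) q F := by
        refine ⟨t, ht3, ?_⟩
        rw [ht2, det_sd_self]
        norm_num
      rw [ind_of hnb, ind_of hTch, one_mul, mul_one]
      unfold Nq
      have hsub : T.filter (fun t => blk (4 * m) (D.walk F t).1 = q) ⊆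
          (Finset.range (D.len F + 1)).filter (fun t => blk (4 * m) (D.walk F t).1 = q) := by
        refine filter_subset_filter _ ?_
        rw [hT]
        exact filter_subset _ _
      exact_mod_cast card_le_card hsub
  rw [hT] at hgoal
  exact hgoal

end Pool.Agent.Y941.EV
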